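import Mathlib
import Pool.Agent.KS6_82.OU.Main

/-!
# MP_4be736_ag: uniruledness and weak uniruledness of `(P^n, c (H_1 + ... + H_d))`, all `n` and `d`

`H_1, ..., H_d` are hyperplanes in general position in `P^n`, `n ≥ 1`, all with the same coefficient
`0 < c ≤ 1`. The pair is weakly uniruled if and only if `d c < n + 1`. We show:

* If `d ≤ n + 1`, or if the remainder of `n + 1` modulo `d - n - 1` is at most `2`, the pair is
  uniruled if and only if `d c < n + 1`, that is if and only if it is weakly uniruled.
* If `d ≥ n + 2` and this remainder is at least `3` (for instance if `n ≥ 2` and `d ≥ 2 n + 3`; the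
  remainder is then `n + 1`), there is a rational number `c` with `d c < n + 1` such that for all
  pairs with coefficients at least `c` all rational curves through a very general point have
  `deg (K_C + D_C) ≥ 0`. So the pair with equal coefficients `c` is weakly uniruled, but not
  uniruled.
* For `d ≥ 2 n + 3` the pair is uniruled if and only if `c < max (2 / (d - n + 1), 1 / (d - 2 n))`:
  the curves are lines through a point of `n` of the hyperplanes, and conics tangent to `2 n` of them.
* So `weakly uniruled ⇒ uniruled` holds for all pairs `(P^n, D)` with `d` hyperplanes in general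
  position and equal coefficients if and only if `d ≤ n + 1` or `(n + 1) mod (d - n - 1) ≤ 2`. For
  `n = 2` this means `d ≤ 6`, which was known (library).
* With `D_C` given by the formula printed in the problem file (the minimum of the numbers
  `t_{a,j} m_j`) the pair is uniruled if and only if `(d - n + 1) c < 2`, and
  `weakly uniruled ⇒ uniruled` holds if and only if `n = 1` or `d ≤ n + 1`.

The proof. For a nonconstant rational curve `f : P^1 → P^n` of degree `e` through a very general
point, not inside any `H_j`, we show that `f` meets the union of the `H_j` in at least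
`(d - n - 1) e + 2` points. For this we consider the determinant
`det (f, f', D_1 f, ..., D_{n-1} f)` where the `D_k` are derivations of `ℂ` over the field generated by
the coefficients of the `H_j`. It is divisible by `(t - a) ^ (∑_j t_{a,j} - 1)`, its degree is at most
`(n + 1) e - 2` (less if `f (∞)` lies on some `H_j`), and it does not vanish for suitable `D_k`, because
the affine coordinates of the point are algebraically independent over the field. The lower bounds for
the degree of `D_C` follow by convexity.
For the existence of the curves let `s = (d - n - 1) e + 2` and prescribe the orders of the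
zeros of the `n + 1` coordinates and of the other linear forms at `s` points `a_i`, not necessarily
distinct. The condition on the `a_i` is a system of `s - 2` homogeneous equations, one has a nonzero
solution with `a_1 = 0`, and if at least `n + 2` of the hyperplanes have only one point of contact (of
order `e`) this solution gives a curve, which is birational onto its image.
-/

set_option autoImplicit false

namespace Pool.Agent.Results.MP_4be736_ag.AllDimensions

open Pool.Agent.KS6_82.OU

/-- Let `n ≥ 1`.
**(1)** For every `d` and every rational `0 < c ≤ 1` there is a smooth orbifold pair `(P^n, D)` with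
support `d` hyperplanes in general position and all coefficients `c`.
**(2)** If all coefficients are `c`, the pair is weakly uniruled if and only if `d c < n + 1`. If
`d ≤ n + 1` or `(n + 1) mod (d - n - 1) ≤ 2`, it is uniruled (with `D_C` the smallest divisor for
which the curve is an orbifold morphism) if and only if `d c < n + 1`; if `d ≥ 2 n + 3`, if and only
if `c < 2 / (d - n + 1)` or `c < 1 / (d - 2 n)`. With `D_C` given by the printed formula the pair is
uniruled if and only if `(d - n + 1) c < 2`.
**(3)** If `d ≥ n + 2` and `(n + 1) mod (d - n - 1) ≥ 3`, there is `c` with `d c < n + 1` such that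
for all pairs with coefficients at least `c` the degree of `K_C + D_C` is `≥ 0` for all nonconstant
rational curves through a very general point that are not inside one of the hyperplanes, for the
smallest divisor and for the printed formula.
**(4)** Weakly uniruled implies uniruled for all pairs with `d` hyperplanes with equal coefficients
if and only if `d ≤ n + 1` or `(n + 1) mod (d - n - 1) ≤ 2`; with the printed formula, if and only
if `n = 1` or `d ≤ n + 1`. -/
theorem result (n d : ℕ) (hn : 1 ≤ n) :
    (∀ c : ℚ, 0 < c → c ≤ 1 → ∃ P : HypOrbifold n d, ∀ j, P.c j = c) ∧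
    (∀ (P : HypOrbifold n d) (c : ℚ), 0 < c → c ≤ 1 → (∀ j, P.c j = c) →
      (P.IsWeaklyUniruled ↔ (d : ℚ) * c < n + 1) ∧
      (d ≤ n + 1 ∨ (n + 1) % (d - n - 1) ≤ 2 →
        (P.IsUniruledWith P.multMin ↔ (d : ℚ) * c < n + 1)) ∧
      (2 * n + 3 ≤ d →
        (P.IsUniruledWith P.multMin ↔ c < 2 / ((d : ℚ) - n + 1) ∨ c < 1 / ((d : ℚ) - 2 * n))) ∧
      (P.IsUniruledWith P.multLit ↔ ((d : ℚ) - n + 1) * c < 2)) ∧
    (n + 2 ≤ d → 3 ≤ (n + 1) % (d - n - 1) →
      ∃ c : ℚ, 0 < c ∧ c < 1 ∧ (d : ℚ) * c < n + 1 ∧ ∀ P : HypOrbifold n d, (∀ j, c ≤ P.c j) →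
        VeryGeneral fun x => ∀ γ : RatCurve n, 1 ≤ γ.e → (∀ j, γ.pull (P.ℓ j) ≠ 0) →
          γ.Through x → 0 ≤ P.degC γ (P.multMin γ) ∧ 0 ≤ P.degC γ (P.multLit γ)) ∧
    ((∀ P : HypOrbifold n d, (∀ i j, P.c i = P.c j) → P.IsWeaklyUniruled →
      P.IsUniruledWith P.multMin) ↔ d ≤ n + 1 ∨ (n + 1) % (d - n - 1) ≤ 2) ∧
    ((∀ P : HypOrbifold n d, (∀ i j, P.c i = P.c j) → P.IsWeaklyUniruled →
      P.IsUniruledWith P.multLit) ↔ n = 1 ∨ d ≤ n + 1) := by
  have hw : ∀ (P : HypOrbifold n d) (c : ℚ), (∀ j, P.c j = c) →
      (P.IsWeaklyUniruled ↔ (d : ℚ) * c < n + 1) := by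
    intro P c hc
    rw [weakly_iff hn P, degKD_eq P hc]
    constructor <;> intro h <;> linarith
  have hcoef : ∀ P : HypOrbifold n d, (∀ i j, P.c i = P.c j) →
      ∃ c : ℚ, 0 < c ∧ c ≤ 1 ∧ ∀ j, P.c j = c := by
    intro P hP
    rcases Nat.eq_zero_or_pos d with h0 | h0
    · subst h0
      exact ⟨1, one_pos, le_rfl, fun j => j.elim0⟩
    · exact ⟨P.c ⟨0, h0⟩, P.c_pos _, P.c_le_one _, fun j => hP _ _⟩
  refine ⟨exists_orbifold n d, fun P c hc0 hc1 hc => ⟨hw P c hc, fun hE =>
    min_iff_small hn hE P hc0 hc1 hc, fun hd => min_iff_big hn hd P hc0 hc1 hc,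
    lit_iff hn P hc0 hc1 hc⟩, exists_crit_pair hn, ⟨fun h => ?_, fun hE P hP hwk => ?_⟩,
    ⟨fun h => ?_, fun hE P hP hwk => ?_⟩⟩
  · by_contra hcon
    push Not at hcon
    obtain ⟨c, hc0, hc1, hc2, hc3⟩ := exists_crit_pair (d := d) hn (by omega) (by omega)
    obtain ⟨P, hP⟩ := exists_orbifold n d c hc0 hc1.le
    have h1 := h P (fun i j => by rw [hP, hP]) ((hw P c hP).2 hc2)
    obtain ⟨x, _, ⟨γ, g1, _, g2, g3, g4⟩, h5⟩ :=
      VeryGeneral.exists_common h1 (hc3 P fun j => (hP j).ge)
    exact absurd (h5 γ g1 g2 g4).1 (not_le.2 g3)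
  · obtain ⟨c, hc0, hc1, hc⟩ := hcoef P hP
    exact (min_iff_small hn hE P hc0 hc1 hc).2 ((hw P c hc).1 hwk)
  · by_contra hcon
    push Not at hcon
    obtain ⟨h1, h2⟩ := hcon
    have hn2 : (2 : ℚ) ≤ n := by exact_mod_cast (by omega : 2 ≤ n)
    have hd2 : (n : ℚ) + 2 ≤ d := by exact_mod_cast (by omega : n + 2 ≤ d)
    have hp : (0 : ℚ) < (d : ℚ) - n + 1 := by linarith
    have hc1 : 2 / ((d : ℚ) - n + 1) ≤ 1 := by
      rw [div_le_one hp]
      linarith
    obtain ⟨P, hP⟩ := exists_orbifold n d (2 / ((d : ℚ) - n + 1)) (by positivity) hc1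
    have h3 := h P (fun i j => by rw [hP, hP]) ((hw P _ hP).2 (by
      rw [mul_div_assoc', div_lt_iff₀ hp]
      have : 0 < ((n : ℚ) - 1) * (d - n - 1) := mul_pos (by linarith) (by linarith)
      nlinarith))
    have h4 := (lit_iff hn P (by positivity) hc1 hP).1 h3
    rw [mul_div_cancel₀ _ hp.ne'] at h4
    exact lt_irrefl _ h4
  · obtain ⟨c, hc0, hc1, hc⟩ := hcoef P hP
    have h1 := (hw P c hc).1 hwk
    refine (lit_iff hn P hc0 hc1 hc).2 ?_
    rcases hE with h2 | h2
    · have h3 : (n : ℚ) = 1 := by exact_mod_cast h2
      rw [h3] at h1 ⊢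
      linarith
    · rcases (by omega : d ≤ n ∨ d = n + 1) with h3 | h3
      · have h4 : (d : ℚ) ≤ n := by exact_mod_cast h3
        nlinarith
      · have h4 : (d : ℚ) = n + 1 := by exact_mod_cast h3
        rw [h4] at h1 ⊢
        have h5 : (0 : ℚ) < n + 1 := by positivity
        have h6 : c < 1 := by
          by_contra hcon
          nlinarith
        linarith

end Pool.Agent.Results.MP_4be736_ag.AllDimensions
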